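import Pool.Agent.L0h19.QE.Stm

/-! Module BESQ of the project QE: a dual large sieve with squares on the odd integers. -/

set_option autoImplicit false

namespace Pool.Agent.L0h91.QE

open Finset
open Pool.Agent.L0h19.QE
open Pool.Agent.L0h87.LE (ee odds)

theorem ee_add (a b : ℝ) : ee (a + b) = ee a * ee b := by
  unfold ee
  rw [← Complex.exp_add]
  congr 1
  push_cast
  ring

theorem norm_ee (t : ℝ) : ‖ee t‖ = 1 := by
  unfold ee
  have : 2 * (Real.pi : ℂ) * Complex.I * (t : ℂ) = ((2 * Real.pi * t : ℝ) : ℂ) * Complex.I := by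
    push_cast
    ring
  rw [this, Complex.norm_exp_ofReal_mul_I]

theorem conj_ee (a : ℝ) : (starRingEnd ℂ) (ee a) = ee (-a) := by
  unfold ee
  rw [← Complex.exp_conj]
  congr 1
  simp only [map_mul, Complex.conj_I, Complex.conj_ofReal, Complex.ofReal_neg, map_ofNat]
  ring

theorem card_odds (N : ℕ) : ((odds N).card : ℝ) ≤ N := by
  have h : (odds N).card ≤ (Icc 1 N).card := Finset.card_filter_le _ _
  rw [Nat.card_Icc] at h
  exact_mod_cast h

theorem t_BESQ : S_BESQ := by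
  intro K N α C R f hC hR hf hsep
  obtain ⟨T, hT⟩ : ∃ T : ℕ → ℂ, T = fun n : ℕ => ∑ l ∈ range K, ee (α l * (n : ℝ) ^ 2) := ⟨_, rfl⟩
  have h1 : ∑ l ∈ range K, S2 f N (α l) = ∑ n ∈ odds N, (f n : ℂ) * T n := by
    unfold S2
    rw [Finset.sum_comm]
    refine Finset.sum_congr rfl fun n _ => ?_
    rw [hT, Finset.mul_sum]
  have h2 : ‖∑ n ∈ odds N, (f n : ℂ) * T n‖ ≤ C * ∑ n ∈ odds N, ‖T n‖ := by
    refine (norm_sum_le _ _).trans ?_
    rw [Finset.mul_sum]
    refine Finset.sum_le_sum fun n _ => ?_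
    rw [norm_mul, Complex.norm_real, Real.norm_eq_abs]
    exact mul_le_mul_of_nonneg_right (hf n) (norm_nonneg _)
  have h3 : (∑ n ∈ odds N, ‖T n‖) ^ 2 ≤ N * ∑ n ∈ odds N, ‖T n‖ ^ 2 := by
    refine (sq_sum_le_card_mul_sum_sq).trans ?_
    exact mul_le_mul_of_nonneg_right (card_odds N) (Finset.sum_nonneg fun _ _ => by positivity)
  have hTT : ∀ n, ((‖T n‖ ^ 2 : ℝ) : ℂ) =
      ∑ l ∈ range K, ∑ l' ∈ range K, ee ((α l - α l') * (n : ℝ) ^ 2) := by
    intro n
    rw [Complex.ofReal_pow, ← Complex.mul_conj', hT]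
    simp only [map_sum]
    rw [Finset.sum_mul_sum]
    refine Finset.sum_congr rfl fun l _ => Finset.sum_congr rfl fun l' _ => ?_
    rw [conj_ee, ← ee_add]
    congr 1
    ring
  have h4 : ((∑ n ∈ odds N, ‖T n‖ ^ 2 : ℝ) : ℂ) =
      ∑ l ∈ range K, ∑ l' ∈ range K, ∑ n ∈ odds N, ee ((α l - α l') * (n : ℝ) ^ 2) := by
    rw [Complex.ofReal_sum, Finset.sum_congr rfl fun n _ => hTT n, Finset.sum_comm]
    refine Finset.sum_congr rfl fun l _ => ?_
    rw [Finset.sum_comm]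
  have h5 : ∀ l ∈ range K, ∀ l' ∈ range K, ‖∑ n ∈ odds N, ee ((α l - α l') * (n : ℝ) ^ 2)‖ ≤
      (if l = l' then (N : ℝ) else 0) + R := by
    intro l hl l' hl'
    rw [mem_range] at hl hl'
    by_cases h : l = l'
    · rw [if_pos h]
      have hc : ‖∑ n ∈ odds N, ee ((α l - α l') * (n : ℝ) ^ 2)‖ ≤ N := by
        refine (norm_sum_le _ _).trans ?_
        rw [Finset.sum_congr rfl fun n _ => norm_ee _, Finset.sum_const, nsmul_eq_mul, mul_one]
        exact card_odds N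
      linarith
    · rw [if_neg h, zero_add]
      exact hsep l hl l' hl' h
  have h6 : ∑ n ∈ odds N, ‖T n‖ ^ 2 ≤ K * N + K ^ 2 * R := by
    have h0 : 0 ≤ ∑ n ∈ odds N, ‖T n‖ ^ 2 := Finset.sum_nonneg fun _ _ => by positivity
    have e1 : ∑ n ∈ odds N, ‖T n‖ ^ 2 = ‖((∑ n ∈ odds N, ‖T n‖ ^ 2 : ℝ) : ℂ)‖ := by
      rw [Complex.norm_real, Real.norm_eq_abs, abs_of_nonneg h0]
    rw [e1, h4]
    refine (norm_sum_le _ _).trans ?_
    calc ∑ l ∈ range K, ‖∑ l' ∈ range K, ∑ n ∈ odds N, ee ((α l - α l') * (n : ℝ) ^ 2)‖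
        ≤ ∑ l ∈ range K, ((N : ℝ) + K * R) := by
          refine Finset.sum_le_sum fun l hl => (norm_sum_le _ _).trans ?_
          refine (Finset.sum_le_sum fun l' hl' => h5 l hl l' hl').trans (le_of_eq ?_)
          rw [Finset.sum_add_distrib, Finset.sum_ite_eq, if_pos hl, Finset.sum_const,
            Finset.card_range, nsmul_eq_mul]
      _ = K * N + K ^ 2 * R := by
          rw [Finset.sum_const, Finset.card_range, nsmul_eq_mul]
          ring
  rw [h1]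
  calc ‖∑ n ∈ odds N, (f n : ℂ) * T n‖ ^ 2 ≤ (C * ∑ n ∈ odds N, ‖T n‖) ^ 2 :=
        pow_le_pow_left₀ (norm_nonneg _) h2 2
    _ = C ^ 2 * (∑ n ∈ odds N, ‖T n‖) ^ 2 := by ring
    _ ≤ C ^ 2 * (N * (K * N + K ^ 2 * R)) := by
        refine mul_le_mul_of_nonneg_left (h3.trans ?_) (by positivity)
        exact mul_le_mul_of_nonneg_left h6 (Nat.cast_nonneg N)
    _ = C ^ 2 * N * (K * N + K ^ 2 * R) := by ring

end Pool.Agent.L0h91.QE
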