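import Pool.Agent.L0h91.QE.BESQ

/-! Module VDC of the project QE: the mean square of the quadratic block sums. -/

set_option autoImplicit false

namespace Pool.Agent.L0h91.QE

open Finset
open Pool.Agent.L0h19.QE
open Pool.Agent.L0h87.LE (ee odds)

theorem row_bound (G : ℕ → ℝ) (hG : ∀ h, 0 ≤ G h) (D : ℕ → ℝ) (M s : ℕ) (hs : s < M)
    (h1 : ∀ s' ≤ s, D s' = G (s - s')) (h2 : ∀ s', s ≤ s' → D s' = G (s' - s)) :
    ∑ s' ∈ range M, D s' ≤ G 0 + 2 * ∑ h ∈ Icc 1 (M - 1), G h := by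
  have e0 : Icc 1 (M - 1) = Ico 1 M := by
    ext x
    simp only [mem_Icc, mem_Ico]
    omega
  have e1 : ∑ h ∈ Icc 1 (M - 1), G h = ∑ j ∈ range (M - 1), G (1 + j) := by
    rw [e0, Finset.sum_Ico_eq_sum_range]
  have e2 : ∑ s' ∈ range M, D s' = (∑ s' ∈ range s, D s' + D s) + ∑ s' ∈ Ico (s + 1) M, D s' := by
    rw [← Finset.sum_range_add_sum_Ico D (show s + 1 ≤ M by omega), Finset.sum_range_succ]
  have e3 : ∑ s' ∈ range s, D s' = ∑ j ∈ range s, G (1 + j) := by
    rw [← Finset.sum_range_reflect (fun j => G (1 + j)) s]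
    refine Finset.sum_congr rfl fun s' hs' => ?_
    rw [mem_range] at hs'
    rw [h1 s' hs'.le]
    congr 1
    omega
  have e4 : ∑ s' ∈ Ico (s + 1) M, D s' = ∑ j ∈ range (M - (s + 1)), G (1 + j) := by
    rw [Finset.sum_Ico_eq_sum_range]
    refine Finset.sum_congr rfl fun j _ => ?_
    rw [h2 _ (by omega)]
    congr 1
    omega
  have e5 : ∀ n : ℕ, n ≤ M - 1 → ∑ j ∈ range n, G (1 + j) ≤ ∑ j ∈ range (M - 1), G (1 + j) := by
    intro n hn
    exact Finset.sum_le_sum_of_subset_of_nonneg (Finset.range_mono hn) fun _ _ _ => hG _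
  have e6 : D s = G 0 := by rw [h1 s le_rfl, Nat.sub_self]
  rw [e2, e3, e4, e1, e6]
  have a1 := e5 s (by omega)
  have a2 := e5 (M - (s + 1)) (by omega)
  linarith

theorem t_VDC : S_VDC := by
  intro α M I
  have key : ((∑ i ∈ range I, ‖bl α M i‖ ^ 2 : ℝ) : ℂ) =
      ∑ s ∈ range M, ∑ s' ∈ range M, ee (4 * α * ((s : ℝ) - s') * (s + s' + 1)) *
        ∑ i ∈ range I, ee (8 * α * M * ((s : ℝ) - s') * i) := by
    have h1 : ∀ i : ℕ, ((‖bl α M i‖ ^ 2 : ℝ) : ℂ) = ∑ s ∈ range M, ∑ s' ∈ range M,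
        ee (4 * α * ((s : ℝ) - s') * (s + s' + 1)) * ee (8 * α * M * ((s : ℝ) - s') * i) := by
      intro i
      rw [Complex.ofReal_pow, ← Complex.mul_conj']
      unfold bl
      simp only [map_sum]
      rw [Finset.sum_mul_sum]
      refine Finset.sum_congr rfl fun s _ => Finset.sum_congr rfl fun s' _ => ?_
      rw [conj_ee, ← ee_add, ← ee_add]
      congr 1
      push_cast
      ring
    rw [Complex.ofReal_sum, Finset.sum_congr rfl fun i _ => h1 i, Finset.sum_comm]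
    refine Finset.sum_congr rfl fun s _ => ?_
    rw [Finset.sum_comm]
    refine Finset.sum_congr rfl fun s' _ => ?_
    rw [Finset.mul_sum]
  have h0 : 0 ≤ ∑ i ∈ range I, ‖bl α M i‖ ^ 2 := Finset.sum_nonneg fun _ _ => by positivity
  have e1 : ∑ i ∈ range I, ‖bl α M i‖ ^ 2 = ‖((∑ i ∈ range I, ‖bl α M i‖ ^ 2 : ℝ) : ℂ)‖ := by
    rw [Complex.norm_real, Real.norm_eq_abs, abs_of_nonneg h0]
  have hneg : ∀ x : ℝ, ‖∑ i ∈ range I, ee (-x * i)‖ = gs x I := by
    intro x
    unfold gs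
    rw [← Complex.norm_conj (∑ i ∈ range I, ee (x * i)), map_sum]
    congr 1
    refine Finset.sum_congr rfl fun i _ => ?_
    rw [conj_ee]
    congr 1
    ring
  have hrow : ∀ s ∈ range M, ‖∑ s' ∈ range M, ee (4 * α * ((s : ℝ) - s') * (s + s' + 1)) *
      ∑ i ∈ range I, ee (8 * α * M * ((s : ℝ) - s') * i)‖ ≤
      I + 2 * ∑ h ∈ Icc 1 (M - 1), gs (8 * α * M * h) I := by
    intro s hs
    rw [mem_range] at hs
    refine (norm_sum_le _ _).trans ?_
    have hG0 : gs (8 * α * M * ((0 : ℕ) : ℝ)) I = I := by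
      unfold gs
      have : ∀ i ∈ range I, ee (8 * α * M * ((0 : ℕ) : ℝ) * i) = 1 := by
        intro i _
        unfold ee
        simp
      rw [Finset.sum_congr rfl this, Finset.sum_const, Finset.card_range, nsmul_eq_mul, mul_one]
      simp
    refine (row_bound (fun h : ℕ => gs (8 * α * M * h) I) (fun h => norm_nonneg _) _ M s hs
      ?_ ?_).trans (le_of_eq ?_)
    · intro s' hs'
      rw [norm_mul, norm_ee, one_mul]
      show _ = ‖_‖
      congr 1
      refine Finset.sum_congr rfl fun i _ => ?_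
      congr 1
      rw [Nat.cast_sub hs']
    · intro s' hs'
      rw [norm_mul, norm_ee, one_mul]
      show _ = gs (8 * α * M * ((s' - s : ℕ) : ℝ)) I
      rw [← hneg]
      congr 1
      refine Finset.sum_congr rfl fun i _ => ?_
      congr 1
      rw [Nat.cast_sub hs']
      ring
    · show gs (8 * α * M * ((0 : ℕ) : ℝ)) I + _ = _
      rw [hG0]
  rw [e1, key]
  refine (norm_sum_le _ _).trans ((Finset.sum_le_sum hrow).trans (le_of_eq ?_))
  rw [Finset.sum_const, Finset.card_range, nsmul_eq_mul]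
  ring

end Pool.Agent.L0h91.QE
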